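import Pool.Agent.N666.CS.Main

/-!
# MP_796113_mp: one ancilla qubit and a constant number of rounds do not suffice

The definitions are in `Pool.Agent.N666.CS.Defs`.

The channels are Schur multipliers `X ↦ (⟨x_a, x_b⟩ X_{ab})` with unit vectors `x_a ∈ ℝ^D` forming
a net of the sphere together with points of the moment curve. In a successful run all Kraus
operators are of the form `diag(⟨g, x_a⟩)`, which has rank larger than `2 d / 3` if `g ≠ 0`; of the
outcomes of a projective measurement on `ℂ^d ⊗ ℂ²` at most two have a projector of such a rank.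
-/

set_option autoImplicit false

open MeasureTheory

namespace Pool.Agent.Results.MP_796113_mp.NoConstantRounds

open Pool.Agent.N666.CS

/-- **Negative answer to Q1, with a bound.** For every `D ≥ 1` there are `d ≥ 2` and a channel `Φ`
on `ℂ^d` such that every protocol (one ancilla qubit, projective measurements, adaptive unitaries,
arbitrary classical randomness) with at most `R` rounds which simulates `Φ` with success
probability `q > 0` satisfies `q ≤ 8 · 2^R / D`. Hence there are no constants `c > 0` and `R` such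
that all channels in all dimensions are simulated with at most `R` rounds and success probability
at least `c`. -/
theorem result :
    (∀ D : ℕ, 1 ≤ D → ∃ d : ℕ, 2 ≤ d ∧ ∃ Φ : Op d →ₗ[ℂ] Op d, IsChannel Φ ∧
      ∀ (R : ℕ) (Ω : Type) (_ : MeasurableSpace Ω) (μ : Measure Ω) (π : Ω → Protocol d) (q : ℝ),
        IsProtocol μ π R → 0 < q → Simulates μ π Φ q → q ≤ 8 * 2 ^ R / D) ∧
    ¬ ∃ c : ℝ, 0 < c ∧ ∃ R : ℕ, ∀ d : ℕ, 2 ≤ d → ∀ Φ : Op d →ₗ[ℂ] Op d, IsChannel Φ →
      ∃ (Ω : Type) (_ : MeasurableSpace Ω) (μ : Measure Ω) (π : Ω → Protocol d) (q : ℝ),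
        IsProtocol μ π R ∧ c ≤ q ∧ Simulates μ π Φ q := by
  have h : ∀ D : ℕ, 1 ≤ D → ∃ d : ℕ, 2 ≤ d ∧ ∃ Φ : Op d →ₗ[ℂ] Op d, IsChannel Φ ∧
      ∀ (R : ℕ) (Ω : Type) (_ : MeasurableSpace Ω) (μ : Measure Ω) (π : Ω → Protocol d) (q : ℝ),
        IsProtocol μ π R → 0 < q → Simulates μ π Φ q → q ≤ 8 * 2 ^ R / D := by
    intro D hD
    obtain ⟨d, hd, x, h1, ⟨n, h2⟩, h3, h4⟩ := exists_family D
    have h1' : ∀ a, ∑ i, x a i ^ 2 = 1 := fun a => (h1 a).resolve_right (by omega)
    refine ⟨d, hd, schur x, schur_isChannel x h1', ?_⟩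
    intro R Ω _ μ π q hP hq hs
    have hD' : (0 : ℝ) < D := by exact_mod_cast hD
    rw [le_div_iff₀ hD']
    exact main_bound h1' h2 h3 h4 hP hq hs
  refine ⟨h, ?_⟩
  rintro ⟨c, hc, R, hall⟩
  obtain ⟨D, hD⟩ := exists_nat_gt (8 * 2 ^ R / c)
  have hDpos : (0 : ℝ) < D := lt_of_le_of_lt (by positivity) hD
  obtain ⟨d, hd, Φ, hΦ, hb⟩ := h D (by exact_mod_cast hDpos)
  obtain ⟨Ω, _, μ, π, q, hP, hcq, hs⟩ := hall d hd Φ hΦ
  have h1 := hb R Ω _ μ π q hP (lt_of_lt_of_le hc hcq) hs
  rw [le_div_iff₀ hDpos] at h1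
  rw [div_lt_iff₀ hc] at hD
  nlinarith

end Pool.Agent.Results.MP_796113_mp.NoConstantRounds
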